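import Mathlib

set_option autoImplicit false

/-!
# Relative semi-ampleness over `Def(X, L)` fails on abelian varieties

`A = V / Γ` is a complex torus (for instance an abelian variety, or a point: `V = 0`), `E = ℂ / Λ` an
elliptic curve, `X = A × E = (V × ℂ) / (Γ × Λ)`, `M` a line bundle on `A` and `L = p^* M` its pullback
under the projection `p : X → A`. If `M` is semi-ample, so is `L`; if `M` is ample then `p` is the
fibration given by `L`. Line bundles are given by factors of automorphy on the universal cover.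

The theorem constructs a line bundle `𝓛` on `X × ℂ`, that is a holomorphic family `L_t`, `t ∈ ℂ`, of line
bundles on `X`, with `L_0 = L`, such that for `t` arbitrarily close to `0` no power `L_t^m`, `m ≥ 1`, has
a nonzero section. So `𝓛` is not relatively semi-ample over any neighbourhood of `0`. Since
`(X × ℂ, 𝓛)` is a deformation of `(X, L)`, it is locally induced from the universal family, so the
universal line bundle is not relatively semi-ample over any neighbourhood of `0` in `Def(X, L)` either.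
-/

namespace Pool.Agent.Results.MP_83476f_ag.FlatTwists

variable {V : Type*} [NormedAddCommGroup V] [NormedSpace ℂ V]

/-- `Γ` is a lattice in the complex vector space `V`, so `V / Γ` is a complex torus. -/
structure IsLattice (Γ : AddSubgroup V) : Prop where
  discrete : DiscreteTopology Γ
  span_top : Submodule.span ℝ (Γ : Set V) = ⊤

/-- A holomorphic line bundle on `V / Γ`, given by a factor of automorphy. -/
structure LineBundle (Γ : AddSubgroup V) where
  e : Γ → V → ℂ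
  holo : ∀ γ, Differentiable ℂ (e γ)
  ne_zero : ∀ γ v, e γ v ≠ 0
  add : ∀ (γ δ : Γ) (v : V), e (γ + δ) v = e γ (δ + v) * e δ v

/-- `s` is a holomorphic section of `L^m`. -/
structure IsSection {Γ : AddSubgroup V} (L : LineBundle Γ) (m : ℕ) (s : V → ℂ) : Prop where
  holo : Differentiable ℂ s
  eq : ∀ (γ : Γ) (v : V), s (γ + v) = L.e γ v ^ m * s v

/-- `L` is semi-ample: some power `L^m`, `m ≥ 1`, is globally generated. -/
def IsSemiAmple {Γ : AddSubgroup V} (L : LineBundle Γ) : Prop :=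
  ∃ m : ℕ, 1 ≤ m ∧ ∀ v, ∃ s, IsSection L m s ∧ s v ≠ 0

/-- A line bundle on `X × ℂ`, `X = V / Γ`: a holomorphic family, parametrised by `ℂ`, of line bundles
on `X`. -/
structure Family (Γ : AddSubgroup V) where
  e : Γ → ℂ × V → ℂ
  holo : ∀ γ, Differentiable ℂ (e γ)
  ne_zero : ∀ γ p, e γ p ≠ 0
  add : ∀ (γ δ : Γ) (t : ℂ) (v : V), e (γ + δ) (t, v) = e γ (t, δ + v) * e δ (t, v)

/-- The member `L_t` of the family. -/
def Family.fibre {Γ : AddSubgroup V} (𝓛 : Family Γ) (t : ℂ) : LineBundle Γ where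
  e := fun γ v => 𝓛.e γ (t, v)
  holo := fun γ => (𝓛.holo γ).comp ((differentiable_const t).prodMk differentiable_id)
  ne_zero := fun γ v => 𝓛.ne_zero γ (t, v)
  add := fun γ δ v => 𝓛.add γ δ t v

/-- `𝓛` is relatively semi-ample over `U ⊆ ℂ`: for some `m ≥ 1` the map `π^* π_* 𝓛^m → 𝓛^m` is
surjective over `U`, where `π : X × ℂ → ℂ`: for every point `(t₀, v)` over `U` there are a neighbourhood
`W` of `t₀` and a section of `𝓛^m` over `X × W` that does not vanish at `(t₀, v)`. -/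
def Family.IsRelSemiAmple {Γ : AddSubgroup V} (𝓛 : Family Γ) (U : Set ℂ) : Prop :=
  ∃ m : ℕ, 1 ≤ m ∧ ∀ t₀ ∈ U, ∀ v : V, ∃ W : Set ℂ, IsOpen W ∧ t₀ ∈ W ∧ ∃ s : ℂ × V → ℂ,
    DifferentiableOn ℂ s (W ×ˢ Set.univ) ∧
    (∀ (γ : Γ), ∀ t ∈ W, ∀ v, s (t, γ + v) = 𝓛.e γ (t, v) ^ m * s (t, v)) ∧ s (t₀, v) ≠ 0

/-- The pullback `p^* M` to `A × E = (V × ℂ) / (Γ × Λ)` of a line bundle `M` on `A = V / Γ`. -/
def LineBundle.pullback {Γ : AddSubgroup V} (M : LineBundle Γ) (Λ : AddSubgroup ℂ) :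
    LineBundle (Γ.prod Λ) where
  e := fun γ p => M.e ⟨(γ : V × ℂ).1, γ.2.1⟩ p.1
  holo := fun γ => (M.holo _).comp differentiable_fst
  ne_zero := fun γ p => M.ne_zero _ _
  add := fun γ δ p => M.add ⟨(γ : V × ℂ).1, γ.2.1⟩ ⟨(δ : V × ℂ).1, δ.2.1⟩ p.1

theorem cobounded (S : AddSubgroup ℂ) (hS : Submodule.span ℝ (S : Set ℂ) = ⊤) :
    ∃ C : ℝ, ∀ v : ℂ, ∃ b ∈ S, ‖b + v‖ ≤ C := by
  obtain ⟨t, ht, hspan, hli⟩ := exists_linearIndependent ℝ (S : Set ℂ)
  have : Finite t := hli.finite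
  have : Fintype t := Fintype.ofFinite t
  let e : Module.Basis t ℝ ℂ := Module.Basis.mk hli (by simp [hspan, hS])
  have he : ∀ i, e i = (i : ℂ) := fun i => by simp [e]
  refine ⟨∑ i, ‖e i‖, fun v => ⟨-(ZSpan.floor e v : ℂ), ?_, ?_⟩⟩
  · refine S.neg_mem ?_
    have h1 : ((ZSpan.floor e v : Submodule.span ℤ (Set.range e)) : ℂ)
        ∈ Submodule.span ℤ (Set.range e) := (ZSpan.floor e v).2
    have h2 : Submodule.span ℤ (Set.range e) ≤ S.toIntSubmodule := by
      rw [Submodule.span_le]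
      rintro _ ⟨i, rfl⟩
      rw [he]
      exact ht i.2
    exact h2 h1
  · have := ZSpan.norm_fract_le e v
    rwa [ZSpan.fract_apply, sub_eq_neg_add] at this

/-- The product of two lattices is a lattice. -/
theorem isLattice_prod {Γ : AddSubgroup V} (hΓ : IsLattice Γ) {Λ : AddSubgroup ℂ}
    (hΛ : IsLattice Λ) : IsLattice (Γ.prod Λ) := by
  refine ⟨?_, ?_⟩
  · have h1 := hΓ.discrete
    have h2 := hΛ.discrete
    have hc : Continuous (fun x : Γ.prod Λ =>
        ((⟨(x : V × ℂ).1, x.2.1⟩, ⟨(x : V × ℂ).2, x.2.2⟩) : Γ × Λ)) := by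
      fun_prop
    have hinj : Function.Injective (fun x : Γ.prod Λ =>
        ((⟨(x : V × ℂ).1, x.2.1⟩, ⟨(x : V × ℂ).2, x.2.2⟩) : Γ × Λ)) := by
      intro x y h
      simp only [Prod.mk.injEq, Subtype.mk.injEq] at h
      exact Subtype.ext (Prod.ext h.1 h.2)
    exact DiscreteTopology.of_continuous_injective hc hinj
  · rw [eq_top_iff]
    rintro ⟨v, z⟩ -
    have h1 : (v, (0 : ℂ)) ∈ Submodule.span ℝ ((Γ.prod Λ : AddSubgroup (V × ℂ)) : Set (V × ℂ)) := by
      have : v ∈ Submodule.span ℝ (Γ : Set V) := by rw [hΓ.span_top]; trivial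
      induction this using Submodule.span_induction with
      | mem x hx => exact Submodule.subset_span ⟨hx, Λ.zero_mem⟩
      | zero => exact Submodule.zero_mem _
      | add x y _ _ hx hy => simpa using Submodule.add_mem _ hx hy
      | smul a x _ hx => simpa using Submodule.smul_mem _ a hx
    have h2 : ((0 : V), z) ∈ Submodule.span ℝ ((Γ.prod Λ : AddSubgroup (V × ℂ)) : Set (V × ℂ)) := by
      have : z ∈ Submodule.span ℝ (Λ : Set ℂ) := by rw [hΛ.span_top]; trivial
      induction this using Submodule.span_induction with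
      | mem x hx => exact Submodule.subset_span ⟨Γ.zero_mem, hx⟩
      | zero => exact Submodule.zero_mem _
      | add x y _ _ hx hy => simpa using Submodule.add_mem _ hx hy
      | smul a x _ hx => simpa using Submodule.smul_mem _ a hx
    simpa using Submodule.add_mem _ h1 h2

/-- The family `L_t = p^* M ⊗ q^* P_t`, where `P_t` is the flat line bundle on `E` with factor of
automorphy `exp (t * conj λ)`. -/
noncomputable def twist {Γ : AddSubgroup V} (M : LineBundle Γ) (Λ : AddSubgroup ℂ) :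
    Family (Γ.prod Λ) where
  e := fun γ p => M.e ⟨(γ : V × ℂ).1, γ.2.1⟩ p.2.1 *
    Complex.exp (p.1 * (starRingEnd ℂ) (γ : V × ℂ).2)
  holo := fun γ => by
    have h := M.holo ⟨(γ : V × ℂ).1, γ.2.1⟩
    exact (h.comp (differentiable_fst.comp differentiable_snd)).mul
      ((differentiable_fst.mul_const _).cexp)
  ne_zero := fun γ p => mul_ne_zero (M.ne_zero _ _) (Complex.exp_ne_zero _)
  add := fun γ δ t v => by
    have h := M.add ⟨(γ : V × ℂ).1, γ.2.1⟩ ⟨(δ : V × ℂ).1, δ.2.1⟩ v.1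
    have h3 : Complex.exp (t * (starRingEnd ℂ) ((γ : V × ℂ).2 + (δ : V × ℂ).2)) =
        Complex.exp (t * (starRingEnd ℂ) (γ : V × ℂ).2) *
          Complex.exp (t * (starRingEnd ℂ) (δ : V × ℂ).2) := by
      rw [← Complex.exp_add, map_add, mul_add]
    have h4 : M.e ⟨((γ + δ : Γ.prod Λ) : V × ℂ).1, (γ + δ).2.1⟩ v.1 =
        M.e ⟨(γ : V × ℂ).1, γ.2.1⟩ ((δ : V × ℂ).1 + v.1) * M.e ⟨(δ : V × ℂ).1, δ.2.1⟩ v.1 := h
    change M.e ⟨((γ + δ : Γ.prod Λ) : V × ℂ).1, (γ + δ).2.1⟩ v.1 *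
      Complex.exp (t * (starRingEnd ℂ) ((γ : V × ℂ).2 + (δ : V × ℂ).2)) =
      (M.e ⟨(γ : V × ℂ).1, γ.2.1⟩ ((δ : V × ℂ).1 + v.1) *
        Complex.exp (t * (starRingEnd ℂ) (γ : V × ℂ).2)) *
      (M.e ⟨(δ : V × ℂ).1, δ.2.1⟩ v.1 * Complex.exp (t * (starRingEnd ℂ) (δ : V × ℂ).2))
    rw [h4, h3]
    ring

/-- An entire function `f` with `f(λ + z) = exp(m t conj λ) f(z)` vanishes if `m Im(t conj λ₁)` is not
in `π ℤ` for some `λ₁`. -/
theorem eq_zero_of_twisted {Λ : AddSubgroup ℂ} (hΛ : IsLattice Λ) {u : ℂ} {f : ℂ → ℂ}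
    (hf : Differentiable ℂ f)
    (hfe : ∀ l ∈ Λ, ∀ z, f (l + z) = Complex.exp (u * (starRingEnd ℂ) l) * f z)
    {l₁ : ℂ} (hl₁ : l₁ ∈ Λ)
    (hne : Complex.exp (u * (starRingEnd ℂ) l₁ - (starRingEnd ℂ) u * l₁) ≠ 1) : ∀ z, f z = 0 := by
  set h : ℂ → ℂ := fun z => f z * Complex.exp (-((starRingEnd ℂ) u * z)) with hh
  have hdiff : Differentiable ℂ h :=
    hf.mul (((differentiable_const _).mul differentiable_id).neg.cexp)
  have hmod : ∀ l ∈ Λ, ∀ z, h (l + z) =
      Complex.exp (u * (starRingEnd ℂ) l - (starRingEnd ℂ) u * l) * h z := by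
    intro l hl z
    simp only [hh]
    rw [hfe l hl z, mul_add, neg_add, Complex.exp_add, sub_eq_add_neg, Complex.exp_add]
    ring
  have hnorm1 : ∀ l : ℂ, ‖Complex.exp (u * (starRingEnd ℂ) l - (starRingEnd ℂ) u * l)‖ = 1 := by
    intro l
    rw [Complex.norm_exp]
    have : (u * (starRingEnd ℂ) l - (starRingEnd ℂ) u * l).re = 0 := by
      simp only [Complex.sub_re, Complex.mul_re, Complex.conj_re, Complex.conj_im]
      ring
    rw [this, Real.exp_zero]
  have hnorm : ∀ l ∈ Λ, ∀ z, ‖h (l + z)‖ = ‖h z‖ := by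
    intro l hl z
    rw [hmod l hl z, norm_mul, hnorm1, one_mul]
  obtain ⟨C, hC⟩ := cobounded Λ hΛ.span_top
  have hb : Bornology.IsBounded (Set.range h) := by
    have hK : IsCompact (Metric.closedBall (0 : ℂ) C) := isCompact_closedBall _ _
    obtain ⟨B, hB⟩ := ((hK.image hdiff.continuous).isBounded).exists_norm_le
    rw [isBounded_iff_forall_norm_le]
    refine ⟨B, ?_⟩
    rintro _ ⟨v, rfl⟩
    obtain ⟨b, hb, hbC⟩ := hC v
    rw [← hnorm b hb v]
    exact hB _ ⟨b + v, by rwa [mem_closedBall_zero_iff], rfl⟩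
  have hconst : ∀ v w, h v = h w := fun v w => hdiff.apply_eq_apply_of_bounded hb v w
  have h0 : h 0 = 0 := by
    by_contra hne0
    have h1 := hmod l₁ hl₁ 0
    rw [hconst (l₁ + 0) 0] at h1
    exact hne (mul_right_cancel₀ hne0 (by rw [one_mul]; exact h1.symm))
  intro z
  have h1 : h z = 0 := by rw [hconst z 0, h0]
  exact (mul_eq_zero.1 h1).resolve_right (Complex.exp_ne_zero _)

theorem exists_ne_zero {Λ : AddSubgroup ℂ} (hΛ : IsLattice Λ) : ∃ l ∈ Λ, l ≠ 0 := by
  by_contra h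
  push Not at h
  have h1 : (Λ : Set ℂ) = {0} := by
    ext x
    refine ⟨fun hx => h x hx, fun hx => ?_⟩
    rw [Set.mem_singleton_iff.1 hx]
    exact Λ.zero_mem
  have h2 := hΛ.span_top
  rw [h1, Submodule.span_zero_singleton] at h2
  exact bot_ne_top h2

/-- Let `A = V / Γ` be a complex torus, `E = ℂ / Λ` an elliptic curve, `M` a line bundle on `A` and
`L = p^* M` its pullback to `X = A × E`. Then `X` is a complex torus; if `M` is semi-ample then `L` is
semi-ample; and there is a line bundle `𝓛` on `X × ℂ` whose restriction `L_0` to `X × 0` is `L` such that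

* arbitrarily close to `0` there are `t` such that no power `L_t^m`, `m ≥ 1`, has a nonzero section;
* `𝓛` is not relatively semi-ample over any neighbourhood of `0`. -/
theorem result {V : Type*} [NormedAddCommGroup V] [NormedSpace ℂ V] [FiniteDimensional ℂ V]
    (Γ : AddSubgroup V) (hΓ : IsLattice Γ) (Λ : AddSubgroup ℂ) (hΛ : IsLattice Λ)
    (M : LineBundle Γ) :
    IsLattice (Γ.prod Λ) ∧ (IsSemiAmple M → IsSemiAmple (M.pullback Λ)) ∧
    ∃ 𝓛 : Family (Γ.prod Λ), 𝓛.fibre 0 = M.pullback Λ ∧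
      (∀ ε > 0, ∃ t : ℂ, ‖t‖ < ε ∧ ∀ m : ℕ, 1 ≤ m → ∀ s, IsSection (𝓛.fibre t) m s → s = 0) ∧
      ∀ U : Set ℂ, IsOpen U → 0 ∈ U → ¬ 𝓛.IsRelSemiAmple U := by
  have hM0 : ∀ v, M.e 0 v = 1 := fun v => by
    have h := M.add 0 0 v
    rw [add_zero, ZeroMemClass.coe_zero, zero_add] at h
    exact mul_right_cancel₀ (M.ne_zero 0 v) (by rw [← h, one_mul])
  have key : ∀ ε > 0, ∃ t : ℂ, ‖t‖ < ε ∧ ∀ m : ℕ, 1 ≤ m → ∀ s,
      IsSection ((twist M Λ).fibre t) m s → s = 0 := by
    intro ε hε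
    obtain ⟨l₁, hl₁, hl0⟩ := exists_ne_zero hΛ
    obtain ⟨n, hn⟩ := exists_nat_gt (Real.pi * √2 / (ε * ‖l₁‖))
    have hlpos : 0 < ‖l₁‖ := norm_pos_iff.2 hl0
    have hnum : 0 < Real.pi * √2 := by positivity
    have hnpos : (0 : ℝ) < n := lt_trans (by positivity) hn
    set r : ℝ := Real.pi * √2 / n with hr
    have hrpos : 0 < r := by positivity
    have hl1' : (starRingEnd ℂ) l₁ ≠ 0 := by simpa using hl0
    set t : ℂ := (r : ℂ) * Complex.I / (starRingEnd ℂ) l₁ with ht
    have htl : t * (starRingEnd ℂ) l₁ = (r : ℂ) * Complex.I := by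
      rw [ht, div_mul_cancel₀ _ hl1']
    have htl' : (starRingEnd ℂ) t * l₁ = -((r : ℂ) * Complex.I) := by
      have := congrArg (starRingEnd ℂ) htl
      simpa using this
    refine ⟨t, ?_, fun m hm s hs => ?_⟩
    · rw [ht, norm_div, norm_mul, Complex.norm_I, mul_one, RCLike.norm_conj, Complex.norm_real,
        Real.norm_eq_abs, abs_of_pos hrpos, div_lt_iff₀ hlpos, hr, div_lt_iff₀ hnpos]
      rw [div_lt_iff₀ (by positivity)] at hn
      linarith
    · funext p
      obtain ⟨v, z⟩ := p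
      have hf : Differentiable ℂ (fun z : ℂ => s (v, z)) :=
        hs.holo.comp ((differentiable_const v).prodMk differentiable_id)
      refine eq_zero_of_twisted hΛ (u := (m : ℂ) * t) hf (fun l hl z => ?_) hl₁ ?_ z
      · have h1 := hs.eq ⟨((0 : V), l), ⟨Γ.zero_mem, hl⟩⟩ (v, z)
        have h2 : s (v, l + z) = (M.e 0 v * Complex.exp (t * (starRingEnd ℂ) l)) ^ m * s (v, z) := by
          have h3 : (((0 : V), l) + (v, z) : V × ℂ) = (v, l + z) := by simp
          have h4 : s ((((0 : V), l) : V × ℂ) + (v, z)) =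
            (M.e 0 v * Complex.exp (t * (starRingEnd ℂ) l)) ^ m * s (v, z) := h1
          rwa [h3] at h4
        rw [h2, hM0, one_mul, ← Complex.exp_nat_mul]
        ring_nf
      · have h1 : (m : ℂ) * t * (starRingEnd ℂ) l₁ - (starRingEnd ℂ) ((m : ℂ) * t) * l₁ =
            ((m : ℂ) * (2 * r)) * Complex.I := by
          rw [map_mul, Complex.conj_natCast, mul_assoc, mul_assoc, htl, htl']
          ring
        rw [h1]
        intro h2
        rw [Complex.exp_eq_one_iff] at h2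
        obtain ⟨k, hk⟩ := h2
        have h3 : (m : ℂ) * (2 * r) = (k : ℂ) * (2 * Real.pi) := by
          have : ((m : ℂ) * (2 * r)) * Complex.I = ((k : ℂ) * (2 * Real.pi)) * Complex.I := by
            rw [hk]; ring
          exact mul_right_cancel₀ Complex.I_ne_zero this
        have h4 : (m : ℝ) * (2 * r) = (k : ℝ) * (2 * Real.pi) := by exact_mod_cast h3
        have h5 : (m : ℝ) * √2 = k * n := by
          rw [hr] at h4
          field_simp at h4
          nlinarith [h4, Real.pi_pos]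
        have hmpos : (0 : ℝ) < m := by exact_mod_cast hm
        have h6 : √2 = ((k * n : ℤ) : ℝ) / ((m : ℤ) : ℝ) := by
          push_cast
          rw [eq_div_iff hmpos.ne', mul_comm]
          exact h5
        exact irrational_sqrt_two ⟨((k * n : ℤ) : ℚ) / ((m : ℤ) : ℚ), by rw [h6]; push_cast; ring⟩
  refine ⟨isLattice_prod hΓ hΛ, ?_, twist M Λ, ?_, key, ?_⟩
  · rintro ⟨m, hm, h⟩
    refine ⟨m, hm, fun p => ?_⟩
    obtain ⟨s, hs, h0⟩ := h p.1
    exact ⟨fun q => s q.1, ⟨hs.holo.comp differentiable_fst, fun γ q =>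
      hs.eq ⟨(γ : V × ℂ).1, γ.2.1⟩ q.1⟩, h0⟩
  · have : ((twist M Λ).fibre 0).e = (M.pullback Λ).e := by
      funext γ p
      change M.e ⟨(γ : V × ℂ).1, γ.2.1⟩ p.1 * Complex.exp (0 * (starRingEnd ℂ) (γ : V × ℂ).2) = _
      rw [zero_mul, Complex.exp_zero, mul_one]
      rfl
    cases h1 : (twist M Λ).fibre 0
    cases h2 : M.pullback Λ
    rw [h1, h2] at this
    subst this
    rfl
  · rintro U hU h0 ⟨m, hm, h⟩
    obtain ⟨ε, hε, hball⟩ := Metric.isOpen_iff.1 hU 0 h0
    obtain ⟨t, ht, hsec⟩ := key ε hε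
    obtain ⟨W, hW, htW, s, hs, hse, hne⟩ := h t (hball (by simpa using ht)) 0
    have : (fun p : V × ℂ => s (t, p)) = 0 := by
      refine hsec m hm _ ⟨fun p => ?_, fun γ p => hse γ t htW p⟩
      have h1 : DifferentiableAt ℂ s (t, p) :=
        (hs (t, p) ⟨htW, trivial⟩).differentiableAt ((hW.prod isOpen_univ).mem_nhds ⟨htW, trivial⟩)
      exact h1.comp p ((differentiableAt_const t).prodMk differentiableAt_id)
    exact hne (congrFun this 0)

end Pool.Agent.Results.MP_83476f_ag.FlatTwists
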